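import Pool.Agent.Helper12.XG.St2

/-! # Project XG, module NU4: numerical inequalities -/

set_option autoImplicit false

namespace Pool.Agent.Helper33.XG

open Finset Polynomial Pool.Agent.Helper12.XG Pool.Agent.Helper14.GS

theorem hNU4 : StNU4 := by
  intro r C y Λ E G hP
  have hΛ : (1200 : ℝ) ≤ Λ := by exact_mod_cast hP.hΛ
  have hC : (1 : ℝ) ≤ C := by exact_mod_cast hP.hC
  have hEn : Λ ≤ E := by
    rw [hP.hE]
    exact Nat.le_self_pow (by omega) Λ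
  have hE12 : 1200 ≤ E := hP.hΛ.trans hEn
  have hE : (1200 : ℝ) ≤ E := by exact_mod_cast hE12
  have hE0 : (0 : ℝ) ≤ E := by linarith
  have hΛ0 : (0 : ℝ) ≤ Λ := by linarith
  set x : ℝ := Real.exp ((Λ : ℝ) / 100) with hx
  have hx0 : 0 < x := Real.exp_pos _
  have hx100 : x ^ 100 = Real.exp Λ := by
    rw [hx, ← Real.exp_nat_mul]
    congr 1
    push_cast
    ring
  have hx50 : x ^ 50 = Real.exp ((Λ : ℝ) / 2) := by
    rw [hx, ← Real.exp_nat_mul]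
    congr 1
    push_cast
    ring
  have hZ : (64 : ℝ) * C * Λ * ((E : ℝ) ^ 2 + 1) ≤ x := by
    have h1 := hP.big
    rw [← hx100] at h1
    exact le_of_pow_le_pow_left₀ (by norm_num) hx0.le h1
  have hCL : (1 : ℝ) * Λ ≤ C * Λ := mul_le_mul_of_nonneg_right hC hΛ0
  have hZ1 : 64 * (Λ : ℝ) * ((E : ℝ) ^ 2 + 1) ≤ x := by
    refine le_trans ?_ hZ
    have h2 : (0 : ℝ) ≤ (E : ℝ) ^ 2 + 1 := by positivity
    have h3 : 64 * (Λ : ℝ) ≤ 64 * C * Λ := by linarith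
    exact mul_le_mul_of_nonneg_right h3 h2
  have hZ2 : 4 * ((E : ℝ) ^ 2 + 1) ≤ x := by nlinarith
  have hE2x : (E : ℝ) ^ 2 ≤ x := by nlinarith
  have hEx : (E : ℝ) ≤ x := by nlinarith
  have hELx : (E : ℝ) * Λ ≤ x := by nlinarith
  have hx20 : 20 ≤ x := by nlinarith
  have hx1 : 1 ≤ x := by linarith
  have hGL : (G : ℝ) ≤ Λ := by
    have h1 := hP.fin
    have h2 : 0 ≤ Real.log E := Real.log_nonneg (by linarith)
    have h3 : (0 : ℝ) ≤ G := Nat.cast_nonneg _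
    nlinarith
  have hEGx : (E : ℝ) * G ≤ x := le_trans (mul_le_mul_of_nonneg_left hGL hE0) hELx
  have hxy : x ^ 100 ≤ y := by
    rw [hx100]
    exact hP.lo
  have hp50 : x ^ 7 ≤ x ^ 50 := pow_le_pow_right₀ hx1 (by norm_num)
  have h1_7 : x ≤ x ^ 7 := le_self_pow₀ hx1 (by norm_num)
  have h2_7 : x ^ 2 ≤ x ^ 7 := pow_le_pow_right₀ hx1 (by norm_num)
  have h50 : 5 * x ^ 50 ≤ x ^ 100 := by
    have h1 : x ^ 100 = x ^ 50 * x ^ 50 := by rw [← pow_add]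
    have h2 : 5 ≤ x ^ 50 := by linarith
    rw [h1]
    exact mul_le_mul_of_nonneg_right h2 (by positivity)
  have hE7 : (E : ℝ) ^ 7 ≤ x ^ 7 := pow_le_pow_left₀ hE0 hEx 7
  have hceil : (x ^ 50 : ℝ) ≤ (⌈Real.exp ((Λ : ℝ) / 2)⌉₊ : ℝ) := by
    rw [hx50]
    exact Nat.le_ceil _
  have hceil2 : (⌈Real.exp ((Λ : ℝ) / 2)⌉₊ : ℝ) < x ^ 50 + 1 := by
    rw [hx50]
    exact Nat.ceil_lt_add_one (Real.exp_pos _).le
  refine ⟨hE12, ?_, ?_, ?_, ?_⟩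
  · have h : ((E ^ 7 : ℕ) : ℝ) ≤ (⌈Real.exp ((Λ : ℝ) / 2)⌉₊ : ℝ) := by
      push_cast
      linarith
    exact_mod_cast h
  · have h : ((4 * (E ^ 2 + 1) : ℕ) : ℝ) ≤ (⌈Real.exp ((Λ : ℝ) / 2)⌉₊ : ℝ) := by
      push_cast
      linarith
    exact_mod_cast h
  · have h3 : ((E : ℝ) * Λ) ^ 2 ≤ x ^ 2 := pow_le_pow_left₀ (by positivity) hELx 2
    have h : ((⌈Real.exp ((Λ : ℝ) / 2)⌉₊ + (E * Λ) ^ 2 + E ^ 2 + 2 : ℕ) : ℝ) ≤ (y : ℝ) := by
      push_cast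
      linarith
    exact_mod_cast h
  · have h : ((E ^ 7 + (E * G + 20) + E ^ 2 + 2 : ℕ) : ℝ) ≤ (y : ℝ) := by
      push_cast
      linarith
    exact_mod_cast h

end Pool.Agent.Helper33.XG
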