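import Pool.Agent.Helper12.XG.St

/-! # Project XG, module PFB: the coefficients of the pole expansion -/

set_option autoImplicit false

namespace Pool.Agent.Helper33.XG

open Finset Polynomial Pool.Agent.Helper12.XG Pool.Agent.Helper14.GS

private lemma node_far {a : ℕ → ℝ} {k k' : ℕ} (h : 1 ≤ |a k - a k'|) {z : ℂ}
    (hz : ‖z - (a k : ℂ)‖ ≤ 1 / 2) : z - (a k' : ℂ) ≠ 0 := by
  intro h0
  have h1 : z = (a k' : ℂ) := sub_eq_zero.mp h0
  rw [h1, ← Complex.ofReal_sub, Complex.norm_real, Real.norm_eq_abs, abs_sub_comm] at hz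
  linarith

private lemma sphere_ne {c z : ℂ} (hz : z ∈ Metric.sphere c (1 / 2)) : z - c ≠ 0 := by
  intro h0
  rw [mem_sphere_iff_norm, h0, norm_zero] at hz
  norm_num at hz

private lemma integral_own (c g : ℂ) (i i' : ℕ) :
    (∮ z in C(c, 1 / 2), g / (z - c) ^ (i' + 1) * (z - c) ^ i) =
      if i' = i then 2 * Real.pi * Complex.I * g else 0 := by
  have h1 : (∮ z in C(c, 1 / 2), g / (z - c) ^ (i' + 1) * (z - c) ^ i) =
      ∮ z in C(c, 1 / 2), g * (z - c) ^ ((i : ℤ) - ((i' : ℤ) + 1)) := by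
    refine circleIntegral.integral_congr (by norm_num) fun z hz => ?_
    have h0 := sphere_ne hz
    rw [zpow_sub₀ h0, zpow_natCast]
    have h2 : (z - c) ^ ((i' : ℤ) + 1) = (z - c) ^ (i' + 1) := by
      rw [← zpow_natCast]
      push_cast
      rfl
    rw [h2]
    ring
  rw [h1, circleIntegral.integral_const_mul]
  split_ifs with h
  · subst h
    have h3 : ((i' : ℤ) - ((i' : ℤ) + 1)) = -1 := by ring
    rw [h3]
    have h4 : (∮ z in C(c, 1 / 2), (z - c) ^ (-1 : ℤ)) = 2 * Real.pi * Complex.I := by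
      have h5 := circleIntegral.integral_sub_center_inv c (R := 1 / 2) (by norm_num)
      simpa only [zpow_neg_one] using h5
    rw [h4]
    ring
  · rw [circleIntegral.integral_sub_zpow_of_ne (by omega), mul_zero]

private lemma residue (n : ℕ) (a : ℕ → ℝ) (m : ℕ → ℕ) (A P : ℂ[X]) (γ : ℕ → ℕ → ℂ)
    (hsep : ∀ k ∈ range n, ∀ k' ∈ range n, k ≠ k' → 1 ≤ |a k - a k'|)
    (hexp : ∀ z : ℂ, (∀ k ∈ range n, z ≠ (a k : ℂ)) → RF n a m A z = P.eval z +
        ∑ k ∈ range n, ∑ i ∈ range (m k), γ k i / (z - (a k : ℂ)) ^ (i + 1))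
    (k : ℕ) (hk : k ∈ range n) (i : ℕ) (hi : i < m k) :
    (∮ z in C((a k : ℂ), 1 / 2), RF n a m A z * (z - (a k : ℂ)) ^ i) =
      2 * Real.pi * Complex.I * γ k i := by
  set c : ℂ := (a k : ℂ) with hc
  have hR : (0 : ℝ) ≤ 1 / 2 := by norm_num
  -- no node on the circle
  have hne : ∀ z ∈ Metric.sphere c (1 / 2), ∀ k' ∈ range n, z - (a k' : ℂ) ≠ 0 := by
    intro z hz k' hk'
    by_cases hkk : k = k'
    · subst hkk
      exact sphere_ne hz
    · exact node_far (hsep k hk k' hk' hkk) (mem_sphere_iff_norm.mp hz).le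
  have h1 : (∮ z in C(c, 1 / 2), RF n a m A z * (z - c) ^ i) =
      ∮ z in C(c, 1 / 2), (P.eval z * (z - c) ^ i +
        ∑ k' ∈ range n, ∑ i' ∈ range (m k'), γ k' i' / (z - (a k' : ℂ)) ^ (i' + 1) * (z - c) ^ i) := by
    refine circleIntegral.integral_congr hR fun z hz => ?_
    rw [hexp z fun k' hk' => sub_ne_zero.mp (hne z hz k' hk'), add_mul, sum_mul]
    congr 1
    refine sum_congr rfl fun k' _ => ?_
    rw [sum_mul]
  have hci : ∀ k' ∈ range n, ∀ i' : ℕ, CircleIntegrable
      (fun z => γ k' i' / (z - (a k' : ℂ)) ^ (i' + 1) * (z - c) ^ i) c (1 / 2) := by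
    intro k' hk' i'
    refine ContinuousOn.circleIntegrable hR ?_
    refine ContinuousOn.mul (ContinuousOn.div continuousOn_const ?_ ?_) ?_
    · exact ((continuous_id.sub continuous_const).pow _).continuousOn
    · intro z hz
      exact pow_ne_zero _ (hne z hz k' hk')
    · exact ((continuous_id.sub continuous_const).pow _).continuousOn
  have hPd : Differentiable ℂ fun z => P.eval z * (z - c) ^ i :=
    P.differentiable.mul ((differentiable_id.sub_const c).pow i)
  have hcP : CircleIntegrable (fun z => P.eval z * (z - c) ^ i) c (1 / 2) :=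
    hPd.continuous.continuousOn.circleIntegrable hR
  have hP0 : (∮ z in C(c, 1 / 2), P.eval z * (z - c) ^ i) = 0 :=
    hPd.diffContOnCl.circleIntegral_eq_zero hR
  rw [h1, circleIntegral.integral_add hcP, hP0, zero_add,
    circleIntegral.integral_fun_sum, sum_eq_single k]
  · rw [circleIntegral.integral_fun_sum fun i' _ => hci k hk i']
    simp only [← hc, integral_own]
    rw [sum_ite_eq' (range (m k)) i]
    simp [hi]
  · intro k' hk' hkk
    rw [circleIntegral.integral_fun_sum fun i' _ => hci k' hk' i']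
    refine sum_eq_zero fun i' _ => ?_
    have hd : DifferentiableOn ℂ
        (fun z => γ k' i' / (z - (a k' : ℂ)) ^ (i' + 1) * (z - c) ^ i)
        (Metric.closedBall c (1 / 2)) := by
      refine DifferentiableOn.mul (DifferentiableOn.div (differentiableOn_const _) ?_ ?_) ?_
      · exact ((differentiable_id.sub_const _).pow _).differentiableOn
      · intro z hz
        refine pow_ne_zero _ (node_far (hsep k hk k' hk' (Ne.symm hkk)) ?_)
        rwa [mem_closedBall_iff_norm] at hz
      · exact ((differentiable_id.sub_const _).pow _).differentiableOn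
    exact (hd.mono Metric.closure_ball_subset_closedBall).diffContOnCl.circleIntegral_eq_zero hR
  · intro h
    exact absurd hk h
  · intro k' hk'
    exact CircleIntegrable.fun_sum _ fun i' _ => hci k' hk' i'
  · exact CircleIntegrable.fun_sum _ fun k' hk' =>
      CircleIntegrable.fun_sum _ fun i' _ => hci k' hk' i'

theorem hPFB : StPFB := by
  intro n a m A P γ hsep hexp k hk
  have hR : (0 : ℝ) ≤ 1 / 2 := by norm_num
  have h2pi : (2 * Real.pi * Complex.I : ℂ) ≠ 0 := Complex.two_pi_I_ne_zero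
  -- factor of the denominator
  have hfac : ∀ z : ℂ, ∏ k' ∈ range n, (z - (a k' : ℂ)) ^ (m k') =
      (z - (a k : ℂ)) ^ (m k) * ∏ k' ∈ (range n).erase k, (z - (a k' : ℂ)) ^ (m k') := fun z =>
    (mul_prod_erase (range n) (fun k' => (z - (a k' : ℂ)) ^ (m k')) hk).symm
  have hD0 : ∀ z : ℂ, ‖z - (a k : ℂ)‖ ≤ 1 / 2 →
      ∏ k' ∈ (range n).erase k, (z - (a k' : ℂ)) ^ (m k') ≠ 0 := by
    intro z hz
    refine prod_ne_zero_iff.mpr fun k' hk' => ?_
    obtain ⟨h1, h2⟩ := mem_erase.mp hk'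
    exact pow_ne_zero _ (node_far (hsep k hk k' h2 (Ne.symm h1)) hz)
  constructor
  · intro hm
    have h1 := residue n a m A P γ hsep hexp k hk (m k - 1) (by omega)
    have h2 : (∮ z in C((a k : ℂ), 1 / 2), RF n a m A z * (z - (a k : ℂ)) ^ (m k - 1)) =
        ∮ z in C((a k : ℂ), 1 / 2), (z - (a k : ℂ))⁻¹ • (A.eval z /
          ∏ k' ∈ (range n).erase k, (z - (a k' : ℂ)) ^ (m k')) := by
      refine circleIntegral.integral_congr hR fun z hz => ?_
      have h0 := sphere_ne hz
      have hD := hD0 z (mem_sphere_iff_norm.mp hz).le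
      unfold RF
      rw [hfac, smul_eq_mul]
      have h3 : (z - (a k : ℂ)) ^ (m k) = (z - (a k : ℂ)) ^ (m k - 1) * (z - (a k : ℂ)) := by
        rw [← pow_succ, Nat.sub_add_cancel hm]
      rw [h3]
      have h4 : (z - (a k : ℂ)) ^ (m k - 1) ≠ 0 := pow_ne_zero _ h0
      field_simp
    have hd : DifferentiableOn ℂ (fun z => A.eval z /
        ∏ k' ∈ (range n).erase k, (z - (a k' : ℂ)) ^ (m k'))
        (Metric.closedBall (a k : ℂ) (1 / 2)) := by
      refine DifferentiableOn.div A.differentiable.differentiableOn ?_ ?_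
      · refine Differentiable.differentiableOn ?_
        fun_prop
      · intro z hz
        exact hD0 z (by rwa [mem_closedBall_iff_norm] at hz)
    have h5 := hd.circleIntegral_sub_inv_smul (w := (a k : ℂ))
      (Metric.mem_ball_self (by norm_num))
    rw [h2, h5, smul_eq_mul] at h1
    exact (mul_left_cancel₀ h2pi h1).symm
  · intro S hS hA i hi
    have h1 := residue n a m A P γ hsep hexp k hk i hi
    have hb : ∀ z ∈ Metric.sphere (a k : ℂ) (1 / 2),
        ‖RF n a m A z * (z - (a k : ℂ)) ^ i‖ ≤ 2 ^ (m k) * S := by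
      intro z hz
      have hz' : ‖z - (a k : ℂ)‖ = 1 / 2 := mem_sphere_iff_norm.mp hz
      have hD := hD0 z hz'.le
      have hAz := hA z hz'
      have hDn : 0 < ‖∏ k' ∈ (range n).erase k, (z - (a k' : ℂ)) ^ (m k')‖ := norm_pos_iff.mpr hD
      have hpn : ∏ k' ∈ (range n).erase k, ‖z - (a k' : ℂ)‖ ^ (m k') =
          ‖∏ k' ∈ (range n).erase k, (z - (a k' : ℂ)) ^ (m k')‖ := by
        rw [norm_prod]
        exact prod_congr rfl fun k' _ => (norm_pow _ _).symm
      rw [hpn] at hAz
      unfold RF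
      rw [hfac, norm_mul, norm_div, norm_mul, norm_pow, norm_pow, hz']
      have h2 : ‖A.eval z‖ / ((1 / 2 : ℝ) ^ (m k) *
          ‖∏ k' ∈ (range n).erase k, (z - (a k' : ℂ)) ^ (m k')‖) ≤ 2 ^ (m k) * S := by
        rw [div_le_iff₀ (by positivity)]
        calc ‖A.eval z‖ ≤ S * ‖∏ k' ∈ (range n).erase k, (z - (a k' : ℂ)) ^ (m k')‖ := hAz
          _ = 2 ^ (m k) * S * ((1 / 2 : ℝ) ^ (m k) *
              ‖∏ k' ∈ (range n).erase k, (z - (a k' : ℂ)) ^ (m k')‖) := by
            have h3 : (2 : ℝ) ^ (m k) * (1 / 2 : ℝ) ^ (m k) = 1 := by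
              rw [← mul_pow]
              norm_num
            linear_combination (- S * ‖∏ k' ∈ (range n).erase k, (z - (a k' : ℂ)) ^ (m k')‖) * h3
      have h4 : (1 / 2 : ℝ) ^ i ≤ 1 := pow_le_one₀ (by norm_num) (by norm_num)
      calc _ ≤ 2 ^ (m k) * S * 1 :=
            mul_le_mul h2 h4 (by positivity) (by positivity)
        _ = 2 ^ (m k) * S := mul_one _
    have h2 := circleIntegral.norm_two_pi_i_inv_smul_integral_le_of_norm_le_const hR hb
    rw [h1, smul_eq_mul, inv_mul_cancel_left₀ h2pi] at h2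
    refine h2.trans ?_
    have h3 : 0 ≤ (2 : ℝ) ^ (m k) * S := by positivity
    linarith

end Pool.Agent.Helper33.XG
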